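import Pool.Agent.H.MP_33c00b_an.B

set_option autoImplicit false

namespace Pool.Agent.Results.MP_33c00b_an.Yes

open Filter Topology

theorem result : ∃ (B : Type) (_ : NormedAddCommGroup B) (_ : NormedSpace ℂ B)
    (_ : CompleteSpace B) (T : B →L[ℂ] B),
    (∃ x : B, ∀ y : B, ∃ n : ℕ → ℕ, ∀ φ : B →L[ℂ] ℂ,
      Tendsto (fun k => φ ((T ^ n k) x)) atTop (𝓝 (φ y))) ∧
    ¬ ∃ x : B, Dense (Set.range fun n : ℕ => (T ^ n) x) :=
  Pool.Agent.H.MP_33c00b_an.main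

end Pool.Agent.Results.MP_33c00b_an.Yes
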